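import Mathlib

set_option autoImplicit false

/-! # Project PP2: the counting of the brackets (COMB3), (COMB4), Mathlib only -/

namespace Pool.Agent.J4H94.PP

open Finset

theorem sum_lt_ind (t : ℕ) : ∀ n : ℕ, t ≤ n → ∑ i ∈ range n, (if i < t then 1 else 0) = t := by
  intro n
  have h : ∀ n : ℕ, ∑ i ∈ range n, (if i < t then 1 else 0) = min n t := by
    intro n
    induction n with
    | zero => simp
    | succ n ih =>
      rw [sum_range_succ, ih]
      split_ifs <;> omega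
  intro hn
  rw [h n]
  omega

/-- the brackets of a family of functions with sums in a window -/
theorem build (n b w s0 c t N : ℕ) (F : Finset (Fin n → Fin b))
    (hF : ∀ f ∈ F, s0 ≤ ∑ i, (f i : ℕ) ∧ ∑ i, (f i : ℕ) < s0 + w) (ht : t ≤ n)
    (hN : N = (n + 1) + 2 * ((n + 1) * c + t + s0 + (b + w))) (hc1 : 1 ≤ c) (hc : b + w < 2 * c) :
    ∃ (A m : ℕ) (S : Finset (Fin m × List (Fin m))), Odd A ∧ 3 ≤ A ∧ m < A ∧
      (∀ s ∈ S, (∀ a ∈ s.2, a < s.1) ∧ s.2.length + 1 = n + 1 ∧
        (A + 2 * (s.1 : ℕ)) + (s.2.map fun a => A + 2 * (a : ℕ)).sum = N) ∧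
      S.card = F.card := by
  classical
  let G : {f : Fin n → Fin b // f ∈ F} → Fin (b + w + 1) × List (Fin (b + w + 1)) := fun f =>
    (⟨b + w - (∑ i, (f.1 i : ℕ) - s0), by omega⟩,
      List.ofFn fun i => ⟨(f.1 i : ℕ) + if (i : ℕ) < t then 1 else 0, by
        have := (f.1 i).2
        split_ifs <;> omega⟩)
  have hG : Function.Injective G := by
    intro f g hfg
    have h1 := (Prod.mk.inj hfg).2
    have h2 := List.ofFn_injective h1
    apply Subtype.ext
    funext i
    have h3 := congrArg Fin.val (congrFun h2 i)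
    simp only [Nat.add_right_cancel_iff] at h3
    exact Fin.ext h3
  refine ⟨2 * c + 1, b + w + 1, Finset.univ.map ⟨G, hG⟩, ⟨c, rfl⟩, by omega, by omega, ?_, ?_⟩
  · intro s hs
    rw [Finset.mem_map] at hs
    obtain ⟨f, -, rfl⟩ := hs
    have hf := hF f.1 f.2
    simp only [Function.Embedding.coeFn_mk]
    refine ⟨?_, ?_, ?_⟩
    · intro a ha
      simp only [G, List.mem_ofFn] at ha
      obtain ⟨i, rfl⟩ := ha
      rw [Fin.lt_def]
      simp only [G]
      have := (f.1 i).2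
      split_ifs <;> omega
    · simp only [G, List.length_ofFn]
    · simp only [G, bind_pure_comp, List.map_eq_map, List.map_ofFn, List.sum_ofFn, Function.comp_def]
      have hsum : ∑ i : Fin n, ((f.1 i : ℕ) + if (i : ℕ) < t then 1 else 0) =
          ∑ i, (f.1 i : ℕ) + t := by
        rw [Finset.sum_add_distrib,
          Fin.sum_univ_eq_sum_range (fun i => if i < t then 1 else 0) n, sum_lt_ind t n ht]
      rw [Finset.sum_add_distrib, ← Finset.mul_sum, hsum]
      simp only [Finset.sum_const, Finset.card_univ, Fintype.card_fin, smul_eq_mul]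
      rw [hN]
      have h2 : n * (2 * c + 1) + (2 * c + 1) = 2 * ((n + 1) * c) + (n + 1) := by ring
      generalize n * (2 * c + 1) = X at h2 ⊢
      generalize (n + 1) * c = Y at h2 ⊢
      omega
  · rw [Finset.card_map, Finset.card_univ, Fintype.card_coe]

/-- the functions with value `0` or `1` and sum `s` -/
theorem two_card (n s : ℕ) : ∃ F : Finset (Fin n → Fin 2), (∀ f ∈ F, ∑ i, (f i : ℕ) = s) ∧
    F.card = n.choose s := by
  classical
  refine ⟨(powersetCard s (univ : Finset (Fin n))).image fun T i => if i ∈ T then 1 else 0,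
    fun f hf => ?_, ?_⟩
  · rw [mem_image] at hf
    obtain ⟨T, hT, rfl⟩ := hf
    have h : ∀ i : Fin n, (((if i ∈ T then 1 else 0 : Fin 2)) : ℕ) = if i ∈ T then 1 else 0 := by
      intro i
      split_ifs <;> rfl
    simp only [h]
    rw [sum_boole, filter_mem_eq_inter, univ_inter]
    simpa using (mem_powersetCard.1 hT).2
  · rw [card_image_of_injective, card_powersetCard, card_univ, Fintype.card_fin]
    intro T T' h
    ext i
    have h1 := congrFun h i
    by_cases hi : i ∈ T <;> by_cases hi' : i ∈ T' <;> simp_all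

theorem two_pow_le (n : ℕ) : 2 ^ n ≤ (n + 1) * n.choose (n / 2) := by
  rw [← Nat.sum_range_choose]
  calc ∑ m ∈ range (n + 1), n.choose m ≤ ∑ _m ∈ range (n + 1), n.choose (n / 2) :=
        sum_le_sum fun m _ => Nat.choose_le_middle m n
    _ = _ := by simp

theorem comb4 (r N : ℕ) (hr : 2 ≤ r) (hN : 6 * r + 5 ≤ N) (hpar : N % 2 = r % 2) :
    ∃ (A m : ℕ) (S : Finset (Fin m × List (Fin m))), Odd A ∧ 3 ≤ A ∧ m < A ∧
      (∀ s ∈ S, (∀ a ∈ s.2, a < s.1) ∧ s.2.length + 1 = r ∧
        (A + 2 * (s.1 : ℕ)) + (s.2.map fun a => A + 2 * (a : ℕ)).sum = N) ∧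
      2 ^ (r - 1) ≤ r * S.card := by
  obtain ⟨n, rfl⟩ : ∃ n, r = n + 1 := ⟨r - 1, by omega⟩
  obtain ⟨e, he⟩ : ∃ e, N = (n + 1) + 2 * e := ⟨(N - (n + 1)) / 2, by omega⟩
  obtain ⟨F, hF, hF'⟩ := two_card n (n / 2)
  obtain ⟨e', he'⟩ : ∃ e', e = e' + n / 2 + 3 := ⟨e - n / 2 - 3, by omega⟩
  have hdiv := Nat.div_add_mod e' (n + 1)
  have hmod := Nat.mod_lt e' (show 0 < n + 1 by omega)
  have hc : 2 ≤ e' / (n + 1) := by
    rw [Nat.le_div_iff_mul_le (show 0 < n + 1 by omega)]
    omega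
  obtain ⟨A, m, S, h1, h2, h3, h4, h5⟩ := build n 2 1 (n / 2) (e' / (n + 1)) (e' % (n + 1)) N F
    (fun f hf => by rw [hF f hf]; omega) (by omega) (by
      rw [he, he']
      generalize (n + 1) * (e' / (n + 1)) = X at hdiv ⊢
      omega) (by omega) (by omega)
  refine ⟨A, m, S, h1, h2, h3, h4, ?_⟩
  rw [h5, hF', Nat.add_sub_cancel]
  exact two_pow_le n

theorem comb3 (r N B : ℕ) (hr : 2 ≤ r) (hB : 1 ≤ B) (hN : r * (3 * B + 2) + 3 * B + 1 ≤ N)
    (hpar : N % 2 = r % 2) :
    ∃ (A m : ℕ) (S : Finset (Fin m × List (Fin m))), Odd A ∧ 3 ≤ A ∧ m < A ∧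
      (∀ s ∈ S, (∀ a ∈ s.2, a < s.1) ∧ s.2.length + 1 = r ∧
        (A + 2 * (s.1 : ℕ)) + (s.2.map fun a => A + 2 * (a : ℕ)).sum = N) ∧
      B ^ (r - 1) ≤ r * S.card := by
  classical
  obtain ⟨n, rfl⟩ : ∃ n, r = n + 1 := ⟨r - 1, by omega⟩
  have hn : 1 ≤ n := by omega
  obtain ⟨b, rfl⟩ : ∃ b, B = b + 1 := ⟨B - 1, by omega⟩
  rw [Nat.add_sub_cancel]
  obtain ⟨e, he⟩ : ∃ e, N = (n + 1) + 2 * e := ⟨(N - (n + 1)) / 2, by
    have : n + 1 ≤ N := by nlinarith
    omega⟩
  -- half of the functions have a small sum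
  set M : Finset (Fin n → Fin (b + 1)) := univ.filter fun f => 2 * ∑ i, (f i : ℕ) ≤ n * b with hM
  have hrev : ∀ f : Fin n → Fin (b + 1), ∑ i, (f i : ℕ) + ∑ i, ((Fin.rev (f i) : Fin (b + 1)) : ℕ)
      = n * b := by
    intro f
    rw [← sum_add_distrib]
    have : ∀ i, (f i : ℕ) + ((Fin.rev (f i) : Fin (b + 1)) : ℕ) = b := by
      intro i
      rw [Fin.val_rev]
      have := (f i).2
      omega
    rw [sum_congr rfl fun i _ => this i]
    simp
  have hhalf : (b + 1) ^ n ≤ 2 * M.card := by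
    have h1 : (univ : Finset (Fin n → Fin (b + 1))) ⊆ M ∪ M.image (fun f i => Fin.rev (f i)) := by
      intro f _
      by_cases h : 2 * ∑ i, (f i : ℕ) ≤ n * b
      · exact mem_union_left _ (by rw [hM, mem_filter]; exact ⟨mem_univ _, h⟩)
      · refine mem_union_right _ (mem_image.2 ⟨fun i => Fin.rev (f i), ?_, by funext i; simp⟩)
        rw [hM, mem_filter]
        refine ⟨mem_univ _, ?_⟩
        have := hrev f
        dsimp only
        omega
    have h2 := (card_le_card h1).trans (card_union_le _ _)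
    rw [card_univ, Fintype.card_fun, Fintype.card_fin, Fintype.card_fin] at h2
    have h3 := card_image_le (s := M) (f := fun (f : Fin n → Fin (b + 1)) i => Fin.rev (f i))
    omega
  -- pigeonhole
  obtain ⟨q, hq⟩ : ∃ q, (b + 1) ^ n ≤ (n + 1) *
      (M.filter fun f => (∑ i, (f i : ℕ)) / (b + 1) = q).card := by
    by_contra hcon
    push Not at hcon
    have h1 := Finset.card_eq_sum_card_fiberwise (s := M)
      (t := Finset.range ((n + 1) / 2)) (f := fun f => (∑ i, (f i : ℕ)) / (b + 1)) (by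
        intro f hf
        simp only [Finset.coe_range, Set.mem_Iio]
        have h2 : 2 * ∑ i, (f i : ℕ) ≤ n * b := (mem_filter.1 hf).2
        have h3 := Nat.div_mul_le_self (∑ i, (f i : ℕ)) (b + 1)
        by_contra h4
        have h5 : n ≤ 2 * ((∑ i, (f i : ℕ)) / (b + 1)) := by omega
        have h6 := Nat.mul_le_mul_right (b + 1) h5
        have h7 : n * (b + 1) = n * b + n := by ring
        have h8 : 2 * ((∑ i, (f i : ℕ)) / (b + 1)) * (b + 1) =
          2 * ((∑ i, (f i : ℕ)) / (b + 1) * (b + 1)) := by ring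
        omega)
    have h2 : (n + 1) * M.card < ((n + 1) / 2) * (b + 1) ^ n := by
      rw [h1, mul_sum]
      calc _ < ∑ b' ∈ Finset.range ((n + 1) / 2), (b + 1) ^ n := by
            apply Finset.sum_lt_sum_of_nonempty ⟨0, by rw [mem_range]; omega⟩
            intro q _
            exact hcon q
        _ = _ := by simp
    have h3 : 2 * (((n + 1) / 2) * (b + 1) ^ n) ≤ (n + 1) * (b + 1) ^ n := by
      rw [← mul_assoc]
      exact Nat.mul_le_mul_right _ (by omega)
    have h4 : (n + 1) * (b + 1) ^ n ≤ (n + 1) * (2 * M.card) := Nat.mul_le_mul_left _ hhalf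
    have h5 : (n + 1) * (2 * M.card) = 2 * ((n + 1) * M.card) := by ring
    omega
  set F := M.filter fun f => (∑ i, (f i : ℕ)) / (b + 1) = q with hF
  have hFw : ∀ f ∈ F, q * (b + 1) ≤ ∑ i, (f i : ℕ) ∧ ∑ i, (f i : ℕ) < q * (b + 1) + (b + 1) := by
    intro f hf
    have h0 := (mem_filter.1 hf).2
    have h1 := Nat.div_mul_le_self (∑ i, (f i : ℕ)) (b + 1)
    have h2 := Nat.lt_mul_div_succ (∑ i, (f i : ℕ)) (show 0 < b + 1 by omega)
    rw [h0] at h1 h2
    have h3 : (b + 1) * (q + 1) = q * (b + 1) + (b + 1) := by ring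
    constructor
    · exact h1
    · omega
  have hne : F.Nonempty := by
    rw [← card_pos]
    by_contra h
    have : F.card = 0 := by omega
    rw [this, mul_zero] at hq
    have : 0 < (b + 1) ^ n := by positivity
    omega
  obtain ⟨f0, hf0⟩ := hne
  have hs : 2 * (q * (b + 1)) ≤ n * b := by
    have h1 := (hFw f0 hf0).1
    have h2 : 2 * ∑ i, (f0 i : ℕ) ≤ n * b := (mem_filter.1 (mem_filter.1 hf0).1).2
    omega
  generalize q * (b + 1) = s0 at hs hFw
  have hkey : (b + 2) * (n + 1) + s0 + 2 * (b + 1) ≤ e := by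
    have h1 : (n + 1) * (3 * (b + 1) + 2) + 3 * (b + 1) + 1 = 3 * (n * b) + 5 * n + 6 * b + 9 := by
      ring
    have h2 : (b + 2) * (n + 1) = n * b + 2 * n + b + 2 := by ring
    rw [h1] at hN
    rw [h2]
    omega
  obtain ⟨e', he'⟩ : ∃ e', e = e' + s0 + 2 * (b + 1) := ⟨e - s0 - 2 * (b + 1), by
    have : 0 ≤ (b + 2) * (n + 1) := Nat.zero_le _
    omega⟩
  have hdiv := Nat.div_add_mod e' (n + 1)
  have hmod := Nat.mod_lt e' (show 0 < n + 1 by omega)
  have hc : b + 2 ≤ e' / (n + 1) := by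
    rw [Nat.le_div_iff_mul_le (show 0 < n + 1 by omega)]
    omega
  obtain ⟨A, m, S, h1, h2, h3, h4, h5⟩ := build n (b + 1) (b + 1) s0 (e' / (n + 1))
    (e' % (n + 1)) N F hFw (by omega) (by
      rw [he, he']
      generalize (n + 1) * (e' / (n + 1)) = X at hdiv ⊢
      omega) (by omega) (by omega)
  exact ⟨A, m, S, h1, h2, h3, h4, by rw [h5]; exact hq⟩

end Pool.Agent.J4H94.PP
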