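import Pool.Agent.J4H43.PP.Stm3
import Pool.Agent.J4H94.PP.CombCore

set_option autoImplicit false

/-! # Project PP2: (COMB3) and (COMB4), word for word -/

namespace Pool.Agent.J4H94.PP

theorem t_COMB3 : Pool.Agent.J4H43.PP.S_COMB3 :=
  fun r N B h1 h2 h3 h4 => comb3 r N B h1 h2 h3 h4

theorem t_COMB4 : Pool.Agent.J4H43.PP.S_COMB4 :=
  fun r N h1 h2 h3 => comb4 r N h1 h2 h3

end Pool.Agent.J4H94.PP
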